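import Mathlib
import Pool.Agent.H20.Aut
import Pool.Agent.H59.CR.Step
import Pool.Agent.H59.CR.Wild

/-!
# Compressibility rates of FA-presentations of abelian groups: a dichotomy

For an abelian group `G` with only finitely many elements of each prime order (for example
`(ℤ; +)`, every finitely generated and every torsion-free abelian group) the relative
compressibility rate of any two FA-presentations is linear.  For every other abelian group the
relative rates are not bounded by any function.

Sketch of the proof.  Let `B n` be the set of elements having a representative of length at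
most `n`.  Automaticity of addition gives `B n + B n ⊆ B (n + c)`, and `B (n + 1)` is covered by
boundedly many translates of `B n`.  For fixed `h` the covering number `N h n` of the `h`-fold
sumset `h B n` by translates of `B n` is eventually periodic in `n`, because `N h n ≤ v` is
first order definable.  Covering numbers are submultiplicative in `h`, uniformly in `n`.
If for every `g` there were large `n` and `x ∈ B (n + 1)` such that no multiple `j x`, `0 < j < g`,
is in the `(2 g + 2)`-fold sumset of `B n`, then at such radii one would gain one in the growth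
exponent of `h ↦ N h n`, contradicting Fekete's lemma.  So for some `g` every `x ∈ B (n + 1)` has a
multiple `j x`, `0 < j < g`, in the `(2 g + 2)`-fold sumset of `B n`; as only finitely many
elements are killed by `j`, in every other presentation `x` is at most a constant longer than
the elements of `B n`.  If infinitely many elements are killed by a prime `p`, one composes the
presentation with a suitable automorphism of the group.
-/

namespace Pool.Agent.Results.MP_868060_lc.RateDichotomy

open Pool.Agent.H20 Pool.Agent.H59.CR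

/-- The convolution of a `k`-tuple of words over `A`: shorter words are padded with `none`
(the padding symbol) to the maximal length and the words are read in parallel. -/
def conv {A : Type} {k : ℕ} (w : Fin k → List A) : List (Fin k → Option A) :=
  (List.range (Finset.univ.sup fun i => (w i).length)).map fun t i => (w i)[t]?

/-- An FA-presentation of `(G; +)`, `G` an abelian group, over the alphabet `A`: a surjection `ψ`
from a regular language `L` onto `G` such that the convolutions of the pairs of words of `L` with equal values,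
and those of the triples `(u, v, w)` of words of `L` with `ψ u + ψ v = ψ w`, form regular
languages. -/
structure FAPres (A : Type) (G : Type*) [AddCommGroup G] where
  /-- the language of normal forms -/
  L : Language A
  /-- the naming function -/
  ψ : {w : List A // w ∈ L} → G
  regular : L.IsRegular
  surj : Function.Surjective ψ
  eq_reg : Language.IsRegular (T := Fin 2 → Option A)
    {c | ∃ u v : {w : List A // w ∈ L}, ψ u = ψ v ∧ c = conv ![u.1, v.1]}
  add_reg : Language.IsRegular (T := Fin 3 → Option A)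
    {c | ∃ u v w : {w : List A // w ∈ L}, ψ u + ψ v = ψ w ∧ c = conv ![u.1, v.1, w.1]}

/-- The compressibility rate of `P` relative to `P₀`: the maximum over all elements `d` that have
a `P`-representative of length at most `n` of the minimal length of a `P₀`-representative of `d`
(and `0` if there are no such `d`). -/
noncomputable def rate {A A₀ : Type} {G : Type*} [AddCommGroup G] (P : FAPres A G)
    (P₀ : FAPres A₀ G) (n : ℕ) : ℕ :=
  sSup {m | ∃ w : {w : List A // w ∈ P.L}, w.1.length ≤ n ∧
    m = sInf {l | ∃ v : {v : List A₀ // v ∈ P₀.L}, P₀.ψ v = P.ψ w ∧ v.1.length = l}}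

section conversion

variable {A : Type} {k : ℕ}

lemma length_conv (w : Fin k → List A) :
    (conv w).length = Finset.univ.sup fun i => (w i).length := by
  simp [conv]

lemma getElem?_conv (w : Fin k → List A) (t : ℕ)
    (ht : t < Finset.univ.sup fun i => (w i).length) :
    (conv w)[t]? = some fun i => (w i)[t]? := by
  simp [conv, ht]

lemma length_le_sup (w : Fin k → List A) (i : Fin k) :
    (w i).length ≤ Finset.univ.sup fun i => (w i).length :=
  Finset.le_sup (f := fun i => (w i).length) (Finset.mem_univ i)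

lemma conv_inj {w w' : Fin k → List A} (h : conv w = conv w') : w = w' := by
  have hlen : (Finset.univ.sup fun i => (w i).length) =
      Finset.univ.sup fun i => (w' i).length := by
    rw [← length_conv, ← length_conv, h]
  funext i
  apply List.ext_getElem?
  intro t
  by_cases ht : t < Finset.univ.sup fun i => (w i).length
  · have h1 := getElem?_conv w t ht
    have h2 := getElem?_conv w' t (hlen ▸ ht)
    rw [h, h2] at h1
    exact (congrFun (Option.some_injective _ h1) i).symm
  · have h1 : (w i)[t]? = none := by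
      rw [List.getElem?_eq_none_iff]
      exact (length_le_sup w i).trans (not_lt.mp ht)
    have h2 : (w' i)[t]? = none := by
      rw [List.getElem?_eq_none_iff]
      exact (length_le_sup w' i).trans (hlen ▸ not_lt.mp ht)
    rw [h1, h2]

/-- A relation whose convolutions form a regular language is automatic. -/
lemma isAut_of_regular {R : (Fin k → List A) → Prop}
    (h : Language.IsRegular (T := Fin k → Option A) {c | ∃ w, R w ∧ c = conv w}) :
    IsAut R := by
  classical
  obtain ⟨σ, hσ, M, hM⟩ := h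
  let P : Aut A (Fin k) :=
    { Q := σ
      fin := inferInstance
      step := fun q a => if a = (fun _ => none) then q else M.step q a
      start := M.start
      acc := fun q => q ∈ M.accept
      frz := fun q => by simp }
  have hrun : ∀ (w : Fin k → List A) (t : ℕ), t ≤ (Finset.univ.sup fun i => (w i).length) →
      P.run w t = M.eval ((conv w).take t) := by
    intro w t
    induction t with
    | zero => intro _; rfl
    | succ t ih =>
      intro ht
      have ht' : t < Finset.univ.sup fun i => (w i).length := ht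
      have h1 : (conv w).take (t + 1) = (conv w).take t ++ [fun i => (w i)[t]?] := by
        rw [List.take_add_one, getElem?_conv w t ht']
        rfl
      rw [h1, DFA.eval_append_singleton, Aut.run_succ, ih (by omega)]
      change (if (fun i => (w i)[t]?) = (fun _ => none) then _ else _) = _
      rw [if_neg]
      intro hcon
      obtain ⟨i, -, hi⟩ := (Finset.lt_sup_iff).mp ht'
      have := congrFun hcon i
      rw [List.getElem?_eq_none_iff] at this
      omega
  refine ⟨P, fun w t ht => ?_⟩
  have h1 : P.run w t = M.eval (conv w) := by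
    rw [P.run_stable' w t (Finset.univ.sup fun i => (w i).length) ht (length_le_sup w),
      hrun w _ le_rfl, List.take_of_length_le (by rw [length_conv])]
  rw [h1]
  change conv w ∈ M.accepts ↔ _
  rw [hM]
  constructor
  · rintro ⟨w', hw', hc⟩
    rwa [conv_inj hc]
  · intro hw
    exact ⟨w, hw, rfl⟩

end conversion

section presentation

variable {A : Type} {G : Type*} [AddCommGroup G] (P : FAPres A G)

open Classical in
/-- the value of a word (junk outside the language) -/
noncomputable def val (w : List A) : G := if h : w ∈ P.L then P.ψ ⟨w, h⟩ else 0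

lemma val_eq (w : {w : List A // w ∈ P.L}) : val P w.1 = P.ψ w := by
  unfold val
  rw [dif_pos w.2]

lemma exists_val (z : G) : ∃ u ∈ P.L, val P u = z := by
  obtain ⟨w, hw⟩ := P.surj z
  exact ⟨w.1, w.2, (val_eq P w).trans hw⟩

/-- the equality relation on representatives -/
def EqR (u v : List A) : Prop := u ∈ P.L ∧ v ∈ P.L ∧ val P u = val P v

lemma isAut_eq : IsAut fun w : Fin 2 → List A => EqR P (w 0) (w 1) := by
  apply isAut_of_regular
  have : ({c | ∃ w : Fin 2 → List A, EqR P (w 0) (w 1) ∧ c = conv w} :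
      Set (List (Fin 2 → Option A))) =
      {c | ∃ u v : {w : List A // w ∈ P.L}, P.ψ u = P.ψ v ∧ c = conv ![u.1, v.1]} := by
    ext c
    constructor
    · rintro ⟨w, ⟨h1, h2, h3⟩, rfl⟩
      refine ⟨⟨w 0, h1⟩, ⟨w 1, h2⟩, ?_, ?_⟩
      · rw [← val_eq, ← val_eq]; exact h3
      · congr 1
        funext i
        fin_cases i <;> rfl
    · rintro ⟨u, v, h, rfl⟩
      refine ⟨![u.1, v.1], ⟨u.2, v.2, ?_⟩, rfl⟩
      change val P u.1 = val P v.1
      rw [val_eq, val_eq, h]
  have h := P.eq_reg
  rw [← this] at h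
  exact h

/-- the addition relation on representatives -/
def AddR (u v s : List A) : Prop :=
  u ∈ P.L ∧ v ∈ P.L ∧ s ∈ P.L ∧ val P u + val P v = val P s

lemma isAut_add : IsAut fun w : Fin 3 → List A => AddR P (w 0) (w 1) (w 2) := by
  apply isAut_of_regular
  have : ({c | ∃ w : Fin 3 → List A, AddR P (w 0) (w 1) (w 2) ∧ c = conv w} :
      Set (List (Fin 3 → Option A))) =
      {c | ∃ u v w : {w : List A // w ∈ P.L}, P.ψ u + P.ψ v = P.ψ w ∧
        c = conv ![u.1, v.1, w.1]} := by
    ext c
    constructor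
    · rintro ⟨w, ⟨h1, h2, h3, h4⟩, rfl⟩
      refine ⟨⟨w 0, h1⟩, ⟨w 1, h2⟩, ⟨w 2, h3⟩, ?_, ?_⟩
      · rw [← val_eq, ← val_eq, ← val_eq]; exact h4
      · congr 1
        funext i
        fin_cases i <;> rfl
    · rintro ⟨u, v, s, h, rfl⟩
      refine ⟨![u.1, v.1, s.1], ⟨u.2, v.2, s.2, ?_⟩, rfl⟩
      change val P u.1 + val P v.1 = val P s.1
      rw [val_eq, val_eq, val_eq, h]
  have h := P.add_reg
  rw [← this] at h
  exact h

variable {ι κ : Type}

lemma isAut_eq' (i j : ι) : IsAut fun w : ι → List A => EqR P (w i) (w j) :=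
  ((isAut_eq P).comap ![i, j]).congr fun _ => Iff.rfl

lemma isAut_add' (i j k : ι) : IsAut fun w : ι → List A => AddR P (w i) (w j) (w k) :=
  ((isAut_add P).comap ![i, j, k]).congr fun _ => Iff.rfl

lemma isAut_mem (i : ι) : IsAut fun w : ι → List A => w i ∈ P.L :=
  (isAut_eq' P i i).congr fun _ => ⟨fun h => h.1, fun h => ⟨h, h, rfl⟩⟩

/-- A relation between integers and one natural number (coded in unary by the length of a word)
is automatic. -/
def ZA (R : (ι → G) → ℕ → Prop) : Prop :=
  IsAut fun w : Option ι → List A =>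
    (∀ i, w (some i) ∈ P.L) ∧ R (fun i => val P (w (some i))) (w none).length

variable {P}

lemma ZA.congr {R S : (ι → G) → ℕ → Prop} (h : ZA P R) (hRS : ∀ x n, R x n ↔ S x n) :
    ZA P S :=
  IsAut.congr h fun _ => and_congr_right fun _ => hRS _ _

lemma ZA.not [Finite ι] {R : (ι → G) → ℕ → Prop} (h : ZA P R) :
    ZA P fun x n => ¬ R x n := by
  have h1 : IsAut fun w : Option ι → List A => ∀ i, w (some i) ∈ P.L :=
    IsAut.pi fun i => isAut_mem P (some i)
  exact (h1.and (IsAut.not h)).congr fun w => by tauto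

lemma ZA.and {R S : (ι → G) → ℕ → Prop} (hR : ZA P R) (hS : ZA P S) :
    ZA P fun x n => R x n ∧ S x n :=
  (IsAut.and hR hS).congr fun w => by tauto

lemma ZA.imp [Finite ι] {R S : (ι → G) → ℕ → Prop} (hR : ZA P R) (hS : ZA P S) :
    ZA P fun x n => R x n → S x n :=
  (hR.and hS.not).not.congr fun x n => by tauto

lemma ZA.sigma [Finite κ] {R : κ → (ι → G) → ℕ → Prop} (h : ∀ k, ZA P (R k)) :
    ZA P fun x n => ∃ k, R k x n :=
  (IsAut.sigma h).congr fun w => by
    constructor
    · rintro ⟨k, h1, h2⟩; exact ⟨h1, k, h2⟩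
    · rintro ⟨h1, k, h2⟩; exact ⟨k, h1, h2⟩

lemma ZA.comap [Finite κ] {R : (ι → G) → ℕ → Prop} (h : ZA P R) (f : ι → κ) :
    ZA P fun (x : κ → G) n => R (x ∘ f) n := by
  have h1 : IsAut fun w : Option κ → List A => ∀ i, w (some i) ∈ P.L :=
    IsAut.pi fun i => isAut_mem P (some i)
  have h2 := IsAut.comap h (Option.map f)
  refine (h1.and h2).congr fun w => ?_
  constructor
  · rintro ⟨a, -, c⟩; exact ⟨a, c⟩
  · rintro ⟨a, c⟩; exact ⟨a, fun i => a (f i), c⟩

/-- combine a hidden integer and visible integers -/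
def zcons (z : G) (x : ι → G) : Option ι → G := fun o => o.elim z x

lemma ZA.ex [Finite ι] {R : (Option ι → G) → ℕ → Prop} (h : ZA P R) :
    ZA P fun (x : ι → G) n => ∃ z, R (zcons z x) n := by
  let f : Option (Option ι) → Option (Option ι) := fun o =>
    match o with
    | none => some none
    | some none => none
    | some (some i) => some (some i)
  have h1 := (IsAut.comap h f).ex
  refine h1.congr fun w => ?_
  constructor
  · rintro ⟨u, h2, h3⟩
    refine ⟨fun i => h2 (some i), val P u, ?_⟩
    have e : zcons (val P u) (fun i => val P (w (some i))) =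
        fun i => val P ((ocons u w ∘ f) (some i)) := by
      funext o
      cases o <;> rfl
    rw [e]
    exact h3
  · rintro ⟨h2, z, h3⟩
    obtain ⟨u, hu, rfl⟩ := exists_val P z
    refine ⟨u, ?_, ?_⟩
    · intro o
      cases o with
      | none => exact hu
      | some i => exact h2 i
    · have e : zcons (val P u) (fun i => val P (w (some i))) =
          fun i => val P ((ocons u w ∘ f) (some i)) := by
        funext o
        cases o <;> rfl
      rw [e] at h3
      exact h3

lemma ZA.all [Finite ι] {R : (Option ι → G) → ℕ → Prop} (h : ZA P R) :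
    ZA P fun (x : ι → G) n => ∀ z, R (zcons z x) n :=
  (ZA.ex h.not).not.congr fun x n => by
    constructor
    · intro hn z
      by_contra hc
      exact hn ⟨z, hc⟩
    · rintro h ⟨z, hz⟩
      exact hz (h z)

variable (P) in
lemma za_add [Finite ι] (i j k : ι) : ZA P fun (x : ι → G) _ => x i + x j = x k := by
  have h1 : IsAut fun w : Option ι → List A => ∀ i, w (some i) ∈ P.L :=
    IsAut.pi fun i => isAut_mem P (some i)
  refine (h1.and (isAut_add' P (some i) (some j) (some k))).congr fun w => ?_
  constructor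
  · rintro ⟨a, b⟩; exact ⟨a, b.2.2.2⟩
  · rintro ⟨a, b⟩; exact ⟨a, a i, a j, a k, b⟩

variable (P) in
/-- integers with a representative of length at most `n` -/
def B (n : ℕ) : Set G := {x | ∃ u ∈ P.L, val P u = x ∧ u.length ≤ n}

variable (P) in
lemma za_B [Finite ι] (i : ι) : ZA P fun (x : ι → G) n => x i ∈ B P n := by
  have h1 : IsAut fun w : Option ι → List A => ∀ i, w (some i) ∈ P.L :=
    IsAut.pi fun i => isAut_mem P (some i)
  have h2 : IsAut fun w : Option (Option ι) → List A =>
      EqR P (w none) (w (some (some i))) ∧ (w none).length ≤ (w (some none)).length :=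
    (isAut_eq' P _ _).and (isAut_len _ _)
  refine (h1.and h2.ex).congr fun w => ?_
  constructor
  · rintro ⟨a, u, b, c⟩
    exact ⟨a, u, b.1, b.2.2, c⟩
  · rintro ⟨a, u, hu, b, c⟩
    exact ⟨a, u, ⟨hu, a i, b⟩, c⟩

/-- the relation `x i = 0` -/
lemma za_zero (P : FAPres A G) [Finite ι] (i : ι) : ZA P fun (x : ι → G) _ => x i = 0 :=
  (za_add P i i i).congr fun _ _ => add_eq_left

variable (P) in
/-- symmetrised balls -/
def D (n : ℕ) : Set G := {x | x ∈ B P n ∧ -x ∈ B P n}

variable (P) in
lemma za_D [Finite ι] (i : ι) : ZA P fun (x : ι → G) n => x i ∈ D P n := by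
  -- variables: `none` is the zero, `some none` is the negative
  have h1 : ZA P fun (x : Option (Option ι) → G) n =>
      (x none = 0 ∧ x (some (some i)) + x (some none) = x none) ∧ x (some none) ∈ B P n :=
    ((za_zero P none).and (za_add P _ _ _)).and (za_B P _)
  refine ((za_B P i).and h1.ex.ex).congr fun x n => ?_
  constructor
  · rintro ⟨a, y, z, ⟨hz, hy⟩, b⟩
    refine ⟨a, ?_⟩
    have hz' : z = 0 := hz
    have hy' : x i + y = z := hy
    have hb : y ∈ B P n := b
    have e : -x i = y := by
      rw [hz'] at hy'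
      exact (eq_neg_of_add_eq_zero_right hy').symm
    rw [e]; exact hb
  · rintro ⟨a, b⟩
    refine ⟨a, -x i, 0, ⟨rfl, ?_⟩, b⟩
    exact add_neg_cancel (x i)

variable (P) in
lemma za_sm [Finite ι] (h : ℕ) (i : ι) : ZA P fun (x : ι → G) n => x i ∈ sm (D P n) h := by
  -- first for the one-element index type
  suffices H : ZA P fun (x : Unit → G) n => x () ∈ sm (D P n) h from
    (H.comap fun _ => i)
  induction h with
  | zero => exact (za_zero P ()).congr fun x n => Iff.rfl
  | succ h ih =>
    have h1 : ZA P fun (x : Option (Option Unit) → G) n =>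
        (x (some none) ∈ sm (D P n) h ∧ x none ∈ D P n) ∧
          x (some none) + x none = x (some (some ())) :=
      ((ih.comap fun _ => some none).and (za_D P none)).and (za_add P _ _ _)
    refine h1.ex.ex.congr fun x n => ?_
    constructor
    · rintro ⟨y, z, ⟨hy, hz⟩, hyz⟩
      exact ⟨y, hy, z, hz, hyz.symm⟩
    · rintro ⟨y, hy, z, hz, hyz⟩
      exact ⟨y, z, ⟨hy, hz⟩, hyz.symm⟩

lemma ZA.exFin (v : ℕ) {R : (Fin v → G) → ℕ → Prop} (h : ZA P R) :
    ZA P fun (_ : Empty → G) n => ∃ y, R y n := by
  induction v with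
  | zero =>
    refine (h.comap (κ := Empty) Fin.elim0).congr fun x n => ?_
    constructor
    · intro h; exact ⟨_, h⟩
    · rintro ⟨y, hy⟩
      have e : x ∘ Fin.elim0 = y := funext fun i => i.elim0
      rw [e]
      exact hy
  | succ v ih =>
    have h1 := (h.comap (finSuccEquiv v)).ex
    refine (ih h1).congr fun x n => ?_
    constructor
    · rintro ⟨y, z, hR⟩; exact ⟨_, hR⟩
    · rintro ⟨y, hy⟩
      refine ⟨fun i => y i.succ, y 0, ?_⟩
      have e : zcons (y 0) (fun i : Fin v => y i.succ) ∘ finSuccEquiv v = y := by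
        funext i
        refine Fin.cases ?_ (fun i => ?_) i
        · simp [zcons]
        · simp [zcons]
      rw [e]
      exact hy

lemma cov_iff_fin {E F : Set G} {v : ℕ} :
    Cov E F v ↔ ∃ y : Fin v → G, ∀ e ∈ E, ∃ i, ∃ f ∈ F, e = y i + f := by
  classical
  constructor
  · rintro ⟨Y, hY, h⟩
    rcases Y.eq_empty_or_nonempty with rfl | ⟨y₀, hy₀⟩
    · refine ⟨fun _ => 0, fun e he => ?_⟩
      obtain ⟨y, hy, -⟩ := h e he
      simp at hy
    · refine ⟨fun i => if hi : (i : ℕ) < Y.card then (Y.equivFin.symm ⟨i, hi⟩ : G) else y₀,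
        fun e he => ?_⟩
      obtain ⟨y, hy, f, hf, rfl⟩ := h e he
      refine ⟨⟨Y.equivFin ⟨y, hy⟩, (Fin.is_lt _).trans_le hY⟩, f, hf, ?_⟩
      simp
  · rintro ⟨y, h⟩
    refine ⟨Finset.univ.image y, Finset.card_image_le.trans (by simp), fun e he => ?_⟩
    obtain ⟨i, f, hf, rfl⟩ := h e he
    exact ⟨y i, Finset.mem_image_of_mem _ (Finset.mem_univ _), f, hf, rfl⟩

variable (P) in
/-- The covering statement is first order definable. -/
lemma za_cov (h v : ℕ) : ZA P fun (_ : Empty → G) n => Cov (sm (D P n) h) (D P n) v := by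
  -- `f` is `none`, `e` is `some none`, the translates are `some (some i)`
  have h1 : ∀ i : Fin v, ZA P fun (x : Option (Option (Fin v)) → G) n =>
      x none ∈ D P n ∧ x (some (some i)) + x none = x (some none) := fun i =>
    (za_D P none).and (za_add P _ _ _)
  have h2 : ZA P fun (x : Option (Fin v) → G) n => x none ∈ sm (D P n) h →
      ∃ i : Fin v, ∃ f, f ∈ D P n ∧ x (some i) + f = x none :=
    (za_sm P h none).imp (ZA.sigma fun i => (h1 i).ex)
  refine (ZA.exFin v h2.all).congr fun x n => ?_
  rw [cov_iff_fin]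
  refine exists_congr fun y => forall_congr' fun e => ?_
  refine imp_congr_right fun _ => exists_congr fun i => exists_congr fun f =>
    and_congr_right fun _ => ?_
  exact eq_comm

/-- Eventual periodicity of the covering numbers. -/
lemma per_cov (a : A) (h v : ℕ) : ∃ p N₀, 0 < p ∧ ∀ n ≥ N₀,
    (Cov (sm (D P n) h) (D P n) v ↔ Cov (sm (D P (n + p)) h) (D P (n + p)) v) := by
  obtain ⟨p, N₀, hp, H⟩ := IsAut.periodic (za_cov P h v) a
  refine ⟨p, N₀, hp, fun n hn => ?_⟩
  have := H n hn
  simpa using this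

end presentation

section lengths

variable {A : Type} {G : Type*} [AddCommGroup G] (P : FAPres A G)

lemma B_mono {n m : ℕ} (h : n ≤ m) : B P n ⊆ B P m := by
  rintro x ⟨u, hu, hx, hl⟩
  exact ⟨u, hu, hx, hl.trans h⟩

lemma D_mono {n m : ℕ} (h : n ≤ m) : D P n ⊆ D P m := fun _ hx =>
  ⟨B_mono P h hx.1, B_mono P h hx.2⟩

lemma exists_mem_B (x : G) : ∃ n, x ∈ B P n := by
  obtain ⟨u, hu, hx⟩ := exists_val P x
  exact ⟨u.length, u, hu, hx, le_rfl⟩

/-- sums and differences are only slightly longer -/
lemma exists_c : ∃ c, ∀ n, ∀ x ∈ B P n, ∀ y ∈ B P n, x + y ∈ B P (n + c) ∧ x - y ∈ B P (n + c) := by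
  obtain ⟨c₂, h₂⟩ := (isAut_add P).short 2
  obtain ⟨c₁, h₁⟩ := (isAut_add P).short 1
  refine ⟨c₁ + c₂, fun n x hx y hy => ⟨?_, ?_⟩⟩
  · obtain ⟨u, hu, rfl, hul⟩ := hx
    obtain ⟨v, hv, rfl, hvl⟩ := hy
    obtain ⟨s, hs, hsv⟩ := exists_val P (val P u + val P v)
    obtain ⟨s', hs', hR⟩ := h₂ ![u, v, s] n (n + s.length) (by
      intro i
      fin_cases i <;> simp <;> omega) ⟨hu, hv, hs, hsv.symm⟩ (by
      intro i hi
      fin_cases i
      · exact hul
      · exact hvl
      · exact absurd rfl hi)
    have h3 := hR.2.2.1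
    have h4 := hR.2.2.2
    have e0 : Function.update ![u, v, s] 2 s' 0 = u := rfl
    have e1 : Function.update ![u, v, s] 2 s' 1 = v := rfl
    have e2 : Function.update ![u, v, s] 2 s' 2 = s' := rfl
    rw [e2] at h3
    rw [e0, e1, e2] at h4
    exact ⟨s', h3, h4.symm, by omega⟩
  · obtain ⟨u, hu, rfl, hul⟩ := hx
    obtain ⟨v, hv, rfl, hvl⟩ := hy
    obtain ⟨s, hs, hsv⟩ := exists_val P (val P u - val P v)
    obtain ⟨s', hs', hR⟩ := h₁ ![v, s, u] n (n + s.length) (by
      intro i
      fin_cases i <;> simp <;> omega) ⟨hv, hs, hu, by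
        change val P v + val P s = val P u
        rw [hsv]; abel⟩ (by
      intro i hi
      fin_cases i
      · exact hvl
      · exact absurd rfl hi
      · exact hul)
    have h3 := hR.2.1
    have h4 := hR.2.2.2
    have e0 : Function.update ![v, s, u] 1 s' 0 = v := rfl
    have e1 : Function.update ![v, s, u] 1 s' 1 = s' := rfl
    have e2 : Function.update ![v, s, u] 1 s' 2 = u := rfl
    rw [e1] at h3
    rw [e0, e1, e2] at h4
    exact ⟨s', h3, eq_sub_of_add_eq' h4, by omega⟩

variable [Finite A]

lemma finite_words (n : ℕ) : {u : List A | u.length ≤ n}.Finite := List.finite_length_le A n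

lemma B_finite (n : ℕ) : (B P n).Finite := by
  refine ((finite_words (A := A) n).image (val P)).subset ?_
  rintro x ⟨u, _, hx, hl⟩
  exact ⟨u, hl, hx⟩

lemma D_finite (n : ℕ) : (D P n).Finite := (B_finite P n).subset fun _ hx => hx.1

omit [Finite A] in
/-- Trimming of common suffixes. -/
lemma exists_trim : ∃ T, ∃ g : List A → List A, ∀ τ : List A, τ.length = T →
    (g τ).length < T ∧ ∀ α₁ α₂ : List A, α₁.length = α₂.length →
      (EqR P (α₁ ++ τ) (α₂ ++ τ) ↔ EqR P (α₁ ++ g τ) (α₂ ++ g τ)) := by
  classical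
  obtain ⟨M, hM⟩ := isAut_eq P
  have := M.fin
  have := Fintype.ofFinite (M.Q → M.Q)
  let F : List A → M.Q → M.Q := fun τ q => τ.foldl (fun q a => M.step q fun _ => some a) q
  have hF : ∀ σ τ : List A, F (σ ++ τ) = F τ ∘ F σ := by
    intro σ τ
    funext q
    simp [F]
  have hrun : ∀ (w : Fin 2 → List A) (m : ℕ), (∀ i, (w i).length = m) → ∀ τ : List A,
      M.run (fun i => w i ++ τ) (m + τ.length) = F τ (M.run w m) := by
    intro w m hw τ
    induction τ using List.reverseRecOn with
    | nil => simp [F]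
    | append_singleton τ a ih =>
      have e1 : (τ ++ [a]).length = τ.length + 1 := by simp
      rw [e1, ← Nat.add_assoc, Aut.run_succ, hF, Function.comp_apply, ← ih]
      have e2 : M.run (fun i => w i ++ (τ ++ [a])) (m + τ.length) =
          M.run (fun i => w i ++ τ) (m + τ.length) := by
        apply Aut.run_congr
        intro s hs i
        rw [← List.append_assoc, List.getElem?_append_left]
        rw [List.length_append, hw]; exact hs
      rw [e2]
      change M.step _ _ = M.step _ _
      congr 1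
      funext i
      rw [← List.append_assoc, List.getElem?_append_right (by rw [List.length_append, hw]),
        List.length_append, hw, Nat.sub_self]
      rfl
  have hcrit : ∀ (α₁ α₂ τ : List A), α₁.length = α₂.length →
      (EqR P (α₁ ++ τ) (α₂ ++ τ) ↔ M.acc (F τ (M.run ![α₁, α₂] α₁.length))) := by
    intro α₁ α₂ τ hα
    have h1 : ∀ i, (![α₁, α₂] i).length = α₁.length := by
      intro i
      fin_cases i
      · rfl
      · exact hα.symm
    rw [← hrun ![α₁, α₂] α₁.length h1 τ, hM]
    · exact Iff.rfl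
    · intro i
      rw [List.length_append, h1]
  refine ⟨Fintype.card (M.Q → M.Q), ?_⟩
  have key : ∀ τ : List A, τ.length = Fintype.card (M.Q → M.Q) →
      ∃ τ' : List A, τ'.length < Fintype.card (M.Q → M.Q) ∧ F τ' = F τ := by
    intro τ hτ
    obtain ⟨s₁, s₂, hne, heq⟩ := Fintype.exists_ne_map_eq_of_card_lt
      (fun s : Fin (Fintype.card (M.Q → M.Q) + 1) => F (τ.take s)) (by simp)
    wlog hlt : (s₁ : ℕ) < s₂ generalizing s₁ s₂
    · refine this s₂ s₁ hne.symm heq.symm ?_
      have : (s₁ : ℕ) ≠ s₂ := fun h => hne (Fin.ext h)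
      omega
    have hs₂ := s₂.is_lt
    refine ⟨τ.take s₁ ++ τ.drop s₂, ?_, ?_⟩
    · rw [List.length_append, List.length_take, List.length_drop]
      omega
    · have e : F τ = F (τ.drop s₂) ∘ F (τ.take s₂) := by
        rw [← hF, List.take_append_drop]
      rw [hF, e]
      congr 1
  choose! g hg using key
  refine ⟨g, fun τ hτ => ⟨(hg τ hτ).1, fun α₁ α₂ hα => ?_⟩⟩
  rw [hcrit α₁ α₂ τ hα, hcrit α₁ α₂ (g τ) hα, (hg τ hτ).2]

/-- The number of elements of the balls grows at most exponentially, locally uniformly. -/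
lemma exists_growth : ∃ K T : ℕ, 1 ≤ K ∧ ∀ n ≥ T, (B P (n + 1)).ncard ≤ K * (B P n).ncard := by
  classical
  obtain ⟨T, g, hg⟩ := exists_trim P
  let W : Set (List A) := {τ | τ.length = T}
  have hW : W.Finite := (finite_words (A := A) T).subset fun τ hτ => le_of_eq hτ
  refine ⟨W.ncard + 1, T, by omega, fun n hn => ?_⟩
  let S : Set G := {x | ∃ u ∈ P.L, val P u = x ∧ u.length = n + 1}
  have hBS : B P (n + 1) ⊆ B P n ∪ S := by
    rintro x ⟨u, hu, hx, hl⟩
    rcases Nat.lt_or_ge n u.length with h | h
    · exact Or.inr ⟨u, hu, hx, by omega⟩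
    · exact Or.inl ⟨u, hu, hx, h⟩
  have hSfin : S.Finite := (B_finite P (n + 1)).subset fun x ⟨u, hu, hx, hl⟩ =>
    ⟨u, hu, hx, le_of_eq hl⟩
  have hS : S.ncard ≤ W.ncard * (B P n).ncard := by
    rw [← Set.ncard_prod]
    have hrep : ∀ x ∈ S, ∃ u ∈ P.L, val P u = x ∧ u.length = n + 1 := fun x hx => hx
    choose! r hr1 hr2 hr3 using hrep
    refine Set.ncard_le_ncard_of_injOn
      (fun x => ((r x).drop (n + 1 - T), val P ((r x).take (n + 1 - T) ++
        g ((r x).drop (n + 1 - T))))) ?_ ?_ (hW.prod (B_finite P n))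
    · intro x hx
      have hlen := hr3 x hx
      have hτ : ((r x).drop (n + 1 - T)).length = T := by
        rw [List.length_drop]; omega
      have hα : ((r x).take (n + 1 - T)).length = n + 1 - T := by
        rw [List.length_take]; omega
      refine ⟨hτ, ?_⟩
      have h1 := (hg _ hτ).2 ((r x).take (n + 1 - T)) ((r x).take (n + 1 - T)) rfl
      rw [List.take_append_drop] at h1
      have h2 := (h1.mp ⟨hr1 x hx, hr1 x hx, rfl⟩).1
      refine ⟨_, h2, rfl, ?_⟩
      have h3 := (hg _ hτ).1
      rw [List.length_append, hα]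
      omega
    · intro x hx y hy hxy
      simp only [Prod.mk.injEq] at hxy
      obtain ⟨h1, h2⟩ := hxy
      have hlx := hr3 x hx
      have hly := hr3 y hy
      have hτ : ((r x).drop (n + 1 - T)).length = T := by
        rw [List.length_drop]; omega
      have hτy : ((r y).drop (n + 1 - T)).length = T := by
        rw [List.length_drop]; omega
      have hα : ((r x).take (n + 1 - T)).length = ((r y).take (n + 1 - T)).length := by
        rw [List.length_take, List.length_take]; omega
      have h3 := (hg _ hτ).2 _ _ hα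
      have hx1 := (hg _ hτ).2 ((r x).take (n + 1 - T)) ((r x).take (n + 1 - T)) rfl
      rw [List.take_append_drop] at hx1
      have hx2 := (hx1.mp ⟨hr1 x hx, hr1 x hx, rfl⟩).1
      have hy1 := (hg _ hτy).2 ((r y).take (n + 1 - T)) ((r y).take (n + 1 - T)) rfl
      rw [List.take_append_drop] at hy1
      have hy2 := (hy1.mp ⟨hr1 y hy, hr1 y hy, rfl⟩).1
      rw [← h1] at hy2 h2
      have h4 := h3.mpr ⟨hx2, hy2, h2⟩
      rw [List.take_append_drop] at h4
      have h5 : (r y).take (n + 1 - T) ++ (r x).drop (n + 1 - T) = r y := by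
        rw [h1, List.take_append_drop]
      rw [h5] at h4
      rw [← hr2 x hx, ← hr2 y hy]
      exact h4.2.2
  calc (B P (n + 1)).ncard ≤ (B P n ∪ S).ncard :=
        Set.ncard_le_ncard hBS ((B_finite P n).union hSfin)
    _ ≤ (B P n).ncard + S.ncard := Set.ncard_union_le _ _
    _ ≤ (B P n).ncard + W.ncard * (B P n).ncard := by omega
    _ = (W.ncard + 1) * (B P n).ncard := by ring

/-- Ruzsa covering for symmetric sets. -/
lemma ruzsa {E F H : Set G} {k : ℕ} (hE : E.Finite) (hF : F.Finite) (hFne : F.Nonempty)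
    (hH : ∀ x ∈ F, ∀ y ∈ F, x - y ∈ H) {S : Set G} (hS : S.Finite)
    (hEF : ∀ x ∈ E, ∀ y ∈ F, x + y ∈ S) (hk : S.ncard ≤ k * F.ncard) : Cov E H k := by
  classical
  open scoped Pointwise in
  obtain ⟨X, hXE, hXK, hX⟩ := Finset.ruzsa_covering_add (K := (k : ℝ)) (A := hE.toFinset)
    (B := hF.toFinset) (by simpa using hFne) (by
      have h1 : (hE.toFinset + hF.toFinset).card ≤ S.ncard := by
        rw [Set.ncard_eq_toFinset_card S hS]
        apply Finset.card_le_card
        intro z hz
        obtain ⟨x, hx, y, hy, rfl⟩ := Finset.mem_add.mp hz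
        rw [Set.Finite.mem_toFinset] at hx hy ⊢
        exact hEF x hx y hy
      have h2 : hF.toFinset.card = F.ncard := (Set.ncard_eq_toFinset_card F hF).symm
      rw [h2]
      exact_mod_cast h1.trans hk)
  refine ⟨X, by exact_mod_cast hXK, fun e he => ?_⟩
  have h1 := hX (hE.mem_toFinset.mpr he)
  obtain ⟨x, hx, z, hz, rfl⟩ := Finset.mem_add.mp h1
  obtain ⟨a, ha, b, hb, rfl⟩ := Finset.mem_sub.mp hz
  rw [Set.Finite.mem_toFinset] at ha hb
  exact ⟨x, hx, a - b, hH a ha b hb, rfl⟩

/-- Elements of the next ball have small multiples in bounded sumsets of the previous ball. -/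
theorem exists_small [Nonempty A] : ∃ n₀ c g m : ℕ, (∀ n, B P n ⊆ D P (n + n₀ + c)) ∧
    ∀ n ≥ m, ∀ x ∈ D P (n + 1), ∃ j : ℕ, 0 < j ∧ j < g ∧ j • x ∈ sm (D P n) (2 * g + 2) := by
  classical
  obtain ⟨a⟩ := ‹Nonempty A›
  obtain ⟨c, hc⟩ := exists_c P
  obtain ⟨K, T, hK, hgr⟩ := exists_growth P
  obtain ⟨n₀, hn₀⟩ := exists_mem_B P 0
  have h0 : ∀ n ≥ n₀, (0 : G) ∈ D P n := fun n hn => by
    refine ⟨B_mono P hn hn₀, ?_⟩
    rw [neg_zero]
    exact B_mono P hn hn₀
  have hneg : ∀ n, ∀ x ∈ D P n, -x ∈ D P n := fun n x hx => ⟨hx.2, by rw [neg_neg]; exact hx.1⟩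
  have hadd : ∀ n, ∀ x ∈ D P n, ∀ y ∈ D P n, x + y ∈ D P (n + c) := by
    intro n x hx y hy
    refine ⟨(hc n x hx.1 y hy.1).1, ?_⟩
    have := (hc n _ hx.2 _ hy.2).1
    rwa [← neg_add] at this
  have hBD : ∀ n ≥ n₀, B P n ⊆ D P (n + c) := by
    intro n hn x hx
    refine ⟨B_mono P (by omega) hx, ?_⟩
    have := (hc n 0 (B_mono P hn hn₀) x hx).2
    rwa [zero_sub] at this
  have hgr' : ∀ k n, n ≥ T → (B P (n + k)).ncard ≤ K ^ k * (B P n).ncard := by
    intro k
    induction k with
    | zero => intro n _; simp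
    | succ k ih =>
      intro n hn
      calc (B P (n + (k + 1))).ncard ≤ K * (B P (n + k)).ncard := hgr (n + k) (by omega)
        _ ≤ K * (K ^ k * (B P n).ncard) := Nat.mul_le_mul_left _ (ih n hn)
        _ = K ^ (k + 1) * (B P n).ncard := by ring
  -- covering of `D (n + 1)` by translates of `D n`
  have hcov : ∀ n ≥ T + n₀ + 2 * c, Cov (D P (n + 1)) (D P n) (K ^ (1 + 3 * c)) := by
    intro n hn
    obtain ⟨m, rfl⟩ : ∃ m, n = m + 2 * c := ⟨n - 2 * c, by omega⟩
    refine ruzsa (F := D P (m + c)) (S := D P (m + 2 * c + 1 + c)) (D_finite P _) (D_finite P _)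
      ⟨0, h0 _ (by omega)⟩ ?_ (D_finite P _) ?_ ?_
    · intro x hx y hy
      have := hadd _ x hx _ (hneg _ y hy)
      rw [← sub_eq_add_neg] at this
      exact D_mono P (by omega) this
    · intro x hx y hy
      exact hadd _ x hx y (D_mono P (by omega) hy)
    · calc (D P (m + 2 * c + 1 + c)).ncard ≤ (B P (m + (1 + 3 * c))).ncard := by
            refine Set.ncard_le_ncard ?_ (B_finite P _)
            intro x hx
            have := hx.1
            have e : m + 2 * c + 1 + c = m + (1 + 3 * c) := by ring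
            rwa [e] at this
        _ ≤ K ^ (1 + 3 * c) * (B P m).ncard := hgr' _ m (by omega)
        _ ≤ K ^ (1 + 3 * c) * (D P (m + c)).ncard :=
            Nat.mul_le_mul_left _ (Set.ncard_le_ncard (hBD m (by omega)) (D_finite P _))
  set K₁ := K ^ (1 + 3 * c) with hK₁
  have hK₁pos : 1 ≤ K₁ := Nat.pow_pos hK
  have hcovk : ∀ k n, n ≥ T + n₀ + 2 * c → Cov (D P (n + k)) (D P n) (K₁ ^ k) := by
    intro k
    induction k with
    | zero => intro n _; simpa using Cov.refl (D P n)
    | succ k ih =>
      intro n hn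
      have h1 := (hcov (n + k) (by omega)).trans (ih n hn)
      rw [pow_succ, mul_comm]
      exact h1
  obtain ⟨g, m, hgm⟩ := small_multiple (D P) (K₁ ^ (c + 1)) (T + n₀ + 2 * c)
    (fun n hn => ⟨h0 n (by omega), hneg n, Nat.pow_pos hK₁pos, by
      have h1 : sm (D P n) 2 ⊆ D P (n + (c + 1)) := by
        rintro _ ⟨x, hx, y, hy, rfl⟩
        exact D_mono P (by omega) (hadd n x (mem_sm_one.mp hx) y hy)
      exact (hcovk (c + 1) n hn).mono_left h1⟩)
    (fun n => D_mono P (by omega))
    (fun n hn => (hcov n hn).mono (Nat.le_self_pow (by omega) _))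
    (fun h v => per_cov a h v)
  exact ⟨n₀, c, g, m, fun n x hx => hBD (n + n₀) (by omega) (B_mono P (by omega) hx), hgm⟩

omit [Finite A] in
/-- A finite set is contained in a ball. -/
lemma exists_ball {S : Set G} (hS : S.Finite) : ∃ r, S ⊆ B P r := by
  classical
  have h : ∀ x : G, ∃ n, x ∈ B P n := exists_mem_B P
  choose f hf using h
  refine ⟨hS.toFinset.sup f, fun x hx => B_mono P ?_ (hf x)⟩
  exact Finset.le_sup (f := f) (hS.mem_toFinset.mpr hx)

omit [Finite A] in
/-- Sumsets of balls are contained in slightly larger balls. -/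
lemma sm_ball {c : ℕ} (hc : ∀ n, ∀ x ∈ B P n, ∀ y ∈ B P n, x + y ∈ B P (n + c) ∧ x - y ∈ B P (n + c))
    {r : ℕ} (h0 : (0 : G) ∈ B P r) {S : Set G} (hS : S ⊆ B P r) (k : ℕ) :
    sm S k ⊆ B P (r + k * c) := by
  induction k with
  | zero =>
    intro x hx
    rw [sm_zero, Set.mem_singleton_iff] at hx
    rw [hx]
    simpa using h0
  | succ k ih =>
    rintro _ ⟨x, hx, y, hy, rfl⟩
    have := (hc (r + k * c) x (ih hx) y (B_mono P (by omega) (hS hy))).1
    exact B_mono P (by rw [Nat.succ_mul]; omega) this

omit [Finite A] in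
/-- Multiplication by a natural number is automatic. -/
lemma za_nsmul {ι : Type} [Finite ι] (j : ℕ) (i k : ι) :
    ZA P fun (x : ι → G) _ => j • x i = x k := by
  induction j generalizing ι with
  | zero => exact (za_zero P k).congr fun x _ => by rw [zero_smul]; exact eq_comm
  | succ j ih =>
    have h1 : ZA P fun (x : Option ι → G) _ =>
        j • x (some i) = x none ∧ x none + x (some i) = x (some k) :=
      (ih (some i) none).and (za_add P _ _ _)
    refine h1.ex.congr fun x n => ?_
    constructor
    · rintro ⟨z, h2, h3⟩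
      have h2' : j • x i = z := h2
      have h3' : z + x i = x k := h3
      rw [succ_nsmul, h2', h3']
    · intro h
      refine ⟨j • x i, rfl, ?_⟩
      change j • x i + x i = x k
      rw [← succ_nsmul, h]

omit [Finite A] in
/-- If multiplication by `j` has a finite kernel, then dividing by `j` makes elements only
slightly longer. -/
lemma exists_divide {j : ℕ} (hj : {x : G | j • x = 0}.Finite) :
    ∃ c, ∀ r, (0 : G) ∈ B P r → ∀ y, j • y ∈ B P r → y ∈ B P (r + c) := by
  classical
  obtain ⟨c₁, hc₁⟩ := exists_c P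
  obtain ⟨ℓ, hℓ⟩ := exists_ball P hj
  obtain ⟨c₂, hc₂⟩ := IsAut.short (za_nsmul P j (0 : Fin 2) 1) (some 0)
  refine ⟨ℓ + c₁ + c₂, fun r h0 y hy => ?_⟩
  obtain ⟨u, hu, huy, hul⟩ := hy
  obtain ⟨v, hv, hvy⟩ := exists_val P y
  let w : Option (Fin 2) → List A := fun o => o.elim [] ![v, u]
  obtain ⟨v', hv', hR⟩ := hc₂ w r (r + v.length) (by
      intro i
      rcases i with _ | i
      · simp [w]
      · fin_cases i <;> simp [w] <;> omega) ⟨by
        intro i
        fin_cases i
        · exact hv
        · exact hu, by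
        change j • val P v = val P u
        rw [hvy, huy]⟩ (by
      intro i hi
      rcases i with _ | i
      · simp [w]
      · fin_cases i
        · exact absurd rfl hi
        · exact hul)
  have e1 : Function.update w (some 0) v' (some 0) = v' := Function.update_self ..
  have e2 : Function.update w (some 0) v' (some 1) = u := by
    rw [Function.update_of_ne (by simp)]
    rfl
  have h3 := hR.1 0
  have h4 := hR.2
  rw [e1] at h3
  simp only [e1, e2] at h4
  have h5 : val P v' ∈ B P (r + c₂) := ⟨v', h3, rfl, hv'⟩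
  have h6 : y - val P v' ∈ B P ℓ := by
    apply hℓ
    change j • (y - val P v') = 0
    rw [smul_sub, h4, huy, sub_self]
  have h7 := (hc₁ (r + ℓ + c₂) _ (B_mono P (by omega) h5) _ (B_mono P (by omega) h6)).1
  rw [add_sub_cancel] at h7
  exact B_mono P (by omega) h7

end lengths

/-- Finiteness of the elements of every prime order implies finiteness of the elements of every
order. -/
lemma finite_torsion {G : Type*} [AddCommGroup G]
    (h : ∀ p : ℕ, p.Prime → {x : G | p • x = 0}.Finite) (j : ℕ) (hj : 0 < j) :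
    {x : G | j • x = 0}.Finite := by
  induction j using Nat.strong_induction_on with
  | _ j ih =>
    rcases Nat.lt_or_ge 1 j with h1 | h1
    · obtain ⟨p, hp, k, rfl⟩ := Nat.exists_prime_and_dvd (by omega : j ≠ 1)
      have hk : 0 < k := Nat.pos_of_mul_pos_left hj
      have hlt : k < p * k := by
        have := hp.two_le
        nlinarith
      have h2 := ih k hlt hk
      have h3 : {x : G | (p * k) • x = 0} = (fun x : G => p • x) ⁻¹' {y | k • y = 0} := by
        ext x
        simp only [Set.mem_ofPred_eq, Set.mem_preimage, smul_smul, mul_comm p k]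
      rw [h3]
      refine Set.Finite.preimage' h2 fun b _ => ?_
      by_cases hb : ∃ x₀ : G, p • x₀ = b
      · obtain ⟨x₀, hx₀⟩ := hb
        refine ((h p hp).image fun t => x₀ + t).subset ?_
        intro x hx
        have hx' : p • x = b := hx
        refine ⟨x - x₀, ?_, add_sub_cancel x₀ x⟩
        change p • (x - x₀) = 0
        rw [smul_sub, hx', hx₀, sub_self]
      · have : (fun x : G => p • x) ⁻¹' {b} = ∅ := by
          ext x
          simp only [Set.mem_preimage, Set.mem_singleton_iff, Set.mem_empty_iff_false, iff_false]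
          exact fun hx => hb ⟨x, hx⟩
        rw [this]
        exact Set.finite_empty
    · have : j = 1 := by omega
      subst this
      simp

/-- **Linear comparison of lengths** in abelian groups with finitely many elements of each
prime order. -/
theorem linear {A A₀ : Type} [Finite A] {G : Type*} [AddCommGroup G]
    (P : FAPres A G) (P₀ : FAPres A₀ G) (hG : ∀ p : ℕ, p.Prime → {x : G | p • x = 0}.Finite) :
    ∃ a b : ℕ, ∀ n, B P n ⊆ B P₀ (a * n + b) := by
  classical
  by_cases hA : Nonempty A
  · obtain ⟨n₀, c, g, m, hBD, hgm⟩ := exists_small P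
    obtain ⟨c₀, hc₀⟩ := exists_c P₀
    have hdiv : ∀ j : ℕ, 0 < j → ∃ cj, ∀ r, (0 : G) ∈ B P₀ r → ∀ y, j • y ∈ B P₀ r →
        y ∈ B P₀ (r + cj) := fun j hj => exists_divide P₀ (finite_torsion hG j hj)
    choose! cj hcj using hdiv
    set s := (2 * g + 2) * c₀ + ∑ j ∈ Finset.range g, cj j with hs
    obtain ⟨r₁, hr₁⟩ := exists_ball P₀ (D_finite P m)
    obtain ⟨r₂, hr₂⟩ := exists_mem_B P₀ 0
    have hstep : ∀ k, D P (m + k) ⊆ B P₀ (r₁ + r₂ + k * s) := by
      intro k
      induction k with
      | zero => exact fun x hx => B_mono P₀ (by omega) (hr₁ hx)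
      | succ k ih =>
        intro x hx
        obtain ⟨j, hj0, hjg, hjx⟩ := hgm (m + k) (by omega) x hx
        have h0 : (0 : G) ∈ B P₀ (r₁ + r₂ + k * s) := B_mono P₀ (by omega) hr₂
        have h1 := sm_ball P₀ hc₀ h0 ih _ hjx
        have h2 := hcj j hj0 _ (B_mono P₀ (by omega) hr₂) x h1
        refine B_mono P₀ ?_ h2
        have h3 : cj j ≤ ∑ j ∈ Finset.range g, cj j :=
          Finset.single_le_sum (f := cj) (fun _ _ => Nat.zero_le _) (Finset.mem_range.mpr hjg)
        have h4 : (k + 1) * s = k * s + s := Nat.succ_mul k s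
        have h5 : s = (2 * g + 2) * c₀ + ∑ j ∈ Finset.range g, cj j := hs
        generalize k * s = ks at h4 ⊢
        generalize (2 * g + 2) * c₀ = q at h5 ⊢
        omega
    refine ⟨s, r₁ + r₂ + (n₀ + c) * s, fun n x hx => ?_⟩
    have h1 : x ∈ D P (m + (n + n₀ + c)) := D_mono P (by omega) (hBD n hx)
    refine B_mono P₀ (le_of_eq ?_) (hstep _ h1)
    ring
  · rw [not_nonempty_iff] at hA
    have h1 : ∀ u : List A, u = [] := fun u => by
      cases u with
      | nil => rfl
      | cons x _ => exact hA.elim x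
    obtain ⟨r, hr⟩ := exists_ball P₀ (S := B P 0) ((Set.finite_singleton (val P [])).subset (by
      rintro x ⟨u, hu, rfl, hl⟩
      rw [h1 u]
      exact rfl))
    refine ⟨0, r, fun n x hx => ?_⟩
    rw [zero_mul, zero_add]
    apply hr
    obtain ⟨u, hu, hx', hl⟩ := hx
    exact ⟨u, hu, hx', by rw [h1 u]; simp⟩

/-! ### Lengths of elements -/

section plen

variable {A A₀ : Type} {G : Type*} [AddCommGroup G]

/-- the minimal length of a representative -/
noncomputable def plen (P₀ : FAPres A₀ G) (x : G) : ℕ :=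
  sInf {l | ∃ v : {v : List A₀ // v ∈ P₀.L}, P₀.ψ v = x ∧ v.1.length = l}

lemma plen_le_iff (P₀ : FAPres A₀ G) (x : G) (r : ℕ) : plen P₀ x ≤ r ↔ x ∈ B P₀ r := by
  constructor
  · intro h
    have hne : {l | ∃ v : {v : List A₀ // v ∈ P₀.L}, P₀.ψ v = x ∧ v.1.length = l}.Nonempty := by
      obtain ⟨v, hv⟩ := P₀.surj x
      exact ⟨_, v, hv, rfl⟩
    obtain ⟨v, hv, hl⟩ := Nat.sInf_mem hne
    refine ⟨v.1, v.2, (val_eq P₀ v).trans hv, ?_⟩
    rw [hl]
    exact h
  · rintro ⟨v, hv, hvx, hl⟩
    refine le_trans (Nat.sInf_le ⟨⟨v, hv⟩, ?_, rfl⟩) hl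
    rw [← val_eq]
    exact hvx

lemma rate_eq (P : FAPres A G) (P₀ : FAPres A₀ G) (n : ℕ) :
    rate P P₀ n = sSup {m | ∃ w : {w : List A // w ∈ P.L}, w.1.length ≤ n ∧
      m = plen P₀ (P.ψ w)} := rfl

lemma rate_le {P : FAPres A G} {P₀ : FAPres A₀ G} {n r : ℕ} (h : B P n ⊆ B P₀ r) :
    rate P P₀ n ≤ r := by
  rw [rate_eq]
  apply csSup_le'
  rintro m ⟨w, hw, rfl⟩
  rw [plen_le_iff]
  exact h ⟨w.1, w.2, val_eq P w, hw⟩

lemma le_rate [Finite A] (P : FAPres A G) (P₀ : FAPres A₀ G) {n : ℕ}
    (w : {w : List A // w ∈ P.L}) (hw : w.1.length ≤ n) : plen P₀ (P.ψ w) ≤ rate P P₀ n := by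
  rw [rate_eq]
  refine le_csSup ?_ ⟨w, hw, rfl⟩
  refine Set.Finite.bddAbove (((B_finite P n).image (plen P₀)).subset ?_)
  rintro m ⟨u, hu, rfl⟩
  exact ⟨P.ψ u, ⟨u.1, u.2, val_eq P u, hu⟩, rfl⟩

lemma subset_rate [Finite A] (P : FAPres A G) (P₀ : FAPres A₀ G) (n : ℕ) :
    B P n ⊆ B P₀ (rate P P₀ n) := by
  rintro x ⟨u, hu, hux, hl⟩
  rw [← plen_le_iff]
  have h1 := le_rate P P₀ ⟨u, hu⟩ hl
  rwa [← val_eq, hux] at h1

/-- In an infinite group the minimal lengths have bounded gaps. -/
lemma exists_gap [Finite A] [Infinite G] (P : FAPres A G) :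
    ∃ c, ∀ n, ∃ x, x ∉ B P n ∧ x ∈ B P (n + c) := by
  classical
  -- the alphabet is nonempty
  have hA : Nonempty A := by
    by_contra hcon
    rw [not_nonempty_iff] at hcon
    have h1 : ∀ u : List A, u = [] := fun u => by
      cases u with
      | nil => rfl
      | cons x _ => exact hcon.elim x
    have h2 : ∀ x : G, x = val P [] := fun x => by
      obtain ⟨u, _, hu⟩ := exists_val P x
      rw [← hu, h1 u]
    obtain ⟨x, y, hxy⟩ := exists_pair_ne G
    exact hxy ((h2 x).trans (h2 y).symm)
  obtain ⟨a⟩ := hA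
  have haut : IsAut fun w : Bool → List A =>
      (w true ∈ P.L ∧ ¬ (w true).length ≤ (w false).length) ∧
        ¬ ∃ v, EqR P v (w true) ∧ ¬ (w true).length ≤ v.length := by
    have h1 : IsAut fun w : Option Bool → List A =>
        EqR P (w none) (w (some true)) ∧ ¬ (w (some true)).length ≤ (w none).length :=
      (isAut_eq' P _ _).and (isAut_len _ _).not
    exact ((isAut_mem P true).and (isAut_len _ _).not).and h1.ex.not
  obtain ⟨c, hc⟩ := haut.short true
  refine ⟨c, fun n => ?_⟩
  obtain ⟨x, hx⟩ : ∃ x, x ∉ B P n := by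
    by_contra hcon
    push Not at hcon
    exact Set.infinite_univ ((B_finite P n).subset fun x _ => hcon x)
  have hmem := (plen_le_iff P x (plen P x)).mp le_rfl
  obtain ⟨u, hu, hux, hul⟩ := hmem
  have hmin : ∀ v ∈ P.L, val P v = x → u.length ≤ v.length := by
    intro v hv hvx
    refine hul.trans ?_
    rw [plen_le_iff]
    exact ⟨v, hv, hvx, le_rfl⟩
  have hun : n < u.length := by
    by_contra hcon
    push Not at hcon
    exact hx ⟨u, hu, hux, hcon⟩
  let w : Bool → List A := fun b => if b then u else List.replicate n a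
  obtain ⟨v, hv, hR⟩ := hc w n (n + u.length) (by
      intro b
      cases b
      · simp [w]
      · simp [w])
    ⟨⟨hu, by
      change ¬ u.length ≤ (List.replicate n a).length
      rw [List.length_replicate]
      omega⟩, by
      rintro ⟨v, ⟨h1, -, h3⟩, h4⟩
      exact h4 (hmin v h1 (h3.trans hux))⟩ (by
      intro b hb
      cases b
      · simp [w]
      · exact absurd rfl hb)
  have e1 : Function.update w true v true = v := Function.update_self ..
  have e2 : Function.update w true v false = List.replicate n a := by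
    rw [Function.update_of_ne (by simp)]
    rfl
  simp only [e1, e2, List.length_replicate] at hR
  obtain ⟨⟨h1, h2⟩, h3⟩ := hR
  refine ⟨val P v, ?_, ⟨v, h1, rfl, hv⟩⟩
  rintro ⟨u', hu', hval, hl⟩
  exact h3 ⟨u', ⟨hu', h1, hval⟩, by omega⟩

end plen

/-- The presentation composed with an automorphism of the group. -/
def twist {A : Type} {G : Type*} [AddCommGroup G] (P₀ : FAPres A G) (α : G ≃+ G) :
    FAPres A G where
  L := P₀.L
  ψ := fun w => α (P₀.ψ w)
  regular := P₀.regular
  surj := α.surjective.comp P₀.surj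
  eq_reg := by
    have : ({c | ∃ u v : {w : List A // w ∈ P₀.L}, α (P₀.ψ u) = α (P₀.ψ v) ∧
        c = conv ![u.1, v.1]} : Set (List (Fin 2 → Option A))) =
        {c | ∃ u v : {w : List A // w ∈ P₀.L}, P₀.ψ u = P₀.ψ v ∧ c = conv ![u.1, v.1]} := by
      ext c
      simp only [Set.mem_ofPred_eq, EmbeddingLike.apply_eq_iff_eq]
    exact this ▸ P₀.eq_reg
  add_reg := by
    have : ({c | ∃ u v w : {w : List A // w ∈ P₀.L}, α (P₀.ψ u) + α (P₀.ψ v) = α (P₀.ψ w) ∧
        c = conv ![u.1, v.1, w.1]} : Set (List (Fin 3 → Option A))) =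
        {c | ∃ u v w : {w : List A // w ∈ P₀.L}, P₀.ψ u + P₀.ψ v = P₀.ψ w ∧
          c = conv ![u.1, v.1, w.1]} := by
      ext c
      simp only [Set.mem_ofPred_eq, ← map_add, EmbeddingLike.apply_eq_iff_eq]
    exact this ▸ P₀.add_reg

/-- **Dichotomy for the compressibility rates of FA-presentations of abelian groups.**
(0) (Q1) The relative rate of any two FA-presentations of `(ℤ; +)` is at most linear.
(1) If an abelian group `G` has only finitely many elements of each prime order, then the relative
rate of any two FA-presentations of `(G; +)` is at most linear; for infinite `G` it is also at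
least linear.
(2) If `G` has infinitely many elements of some prime order, then for every FA-presentation `P₀` of
`(G; +)` and every function `f` there is an FA-presentation (with the same language) whose rate
relative to `P₀` is at least `f n` for all large `n`. -/
theorem result :
    (∀ (A A₀ : Type) [Finite A] [Finite A₀] (P : FAPres A ℤ) (P₀ : FAPres A₀ ℤ),
      ∃ a b : ℕ, ∀ n : ℕ, rate P P₀ n ≤ a * n + b) ∧
    ∀ (G : Type) [AddCommGroup G],
      ((∀ p : ℕ, p.Prime → {x : G | p • x = 0}.Finite) →
        ∀ (A A₀ : Type) [Finite A] [Finite A₀] (P : FAPres A G) (P₀ : FAPres A₀ G),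
          ∃ a b : ℕ, ∀ n : ℕ, rate P P₀ n ≤ a * n + b ∧
            (Infinite G → n ≤ a * rate P P₀ n + b)) ∧
      ((∃ p : ℕ, p.Prime ∧ {x : G | p • x = 0}.Infinite) →
        ∀ (A : Type) [Finite A] (P₀ : FAPres A G) (f : ℕ → ℕ),
          ∃ P : FAPres A G, P.L = P₀.L ∧ ∃ n₀ : ℕ, ∀ n ≥ n₀, f n ≤ rate P P₀ n) := by
  classical
  have main : ∀ (G : Type) [AddCommGroup G],
      (∀ p : ℕ, p.Prime → {x : G | p • x = 0}.Finite) →
        ∀ (A A₀ : Type) [Finite A] [Finite A₀] (P : FAPres A G) (P₀ : FAPres A₀ G),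
          ∃ a b : ℕ, ∀ n : ℕ, rate P P₀ n ≤ a * n + b ∧
            (Infinite G → n ≤ a * rate P P₀ n + b) := by
    intro G _ hG A A₀ _ _ P P₀
    obtain ⟨a₁, b₁, h₁⟩ := linear P P₀ hG
    obtain ⟨a₂, b₂, h₂⟩ := linear P₀ P hG
    obtain ⟨c, hc⟩ : ∃ c, Infinite G → ∀ n, ∃ x, x ∉ B P n ∧ x ∈ B P (n + c) := by
      by_cases hinf : Infinite G
      · obtain ⟨c, hc⟩ := exists_gap P
        exact ⟨c, fun _ => hc⟩
      · exact ⟨0, fun h => absurd h hinf⟩
    refine ⟨a₁ + a₂, b₁ + b₂ + c, fun n => ⟨?_, fun hinf => ?_⟩⟩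
    · refine (rate_le (h₁ n)).trans ?_
      rw [add_mul]
      omega
    · by_contra hcon
      push Not at hcon
      obtain ⟨x, hx1, hx2⟩ := hc hinf (a₂ * rate P P₀ n + b₂)
      apply hx1
      apply h₂
      apply subset_rate
      refine B_mono P ?_ hx2
      rw [add_mul] at hcon
      omega
  refine ⟨fun A A₀ _ _ P P₀ => ?_, fun G _ => ⟨main G, ?_⟩⟩
  · obtain ⟨a, b, h⟩ := main ℤ (fun p hp => by
      refine (Set.finite_singleton (0 : ℤ)).subset fun x hx => ?_
      have h1 : (p : ℕ) • x = 0 := hx
      rw [smul_eq_zero] at h1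
      exact h1.resolve_left hp.ne_zero) A A₀ P P₀
    exact ⟨a, b, fun n => (h n).1⟩
  · rintro ⟨p, hp, hinf⟩ A _ P₀ f
    obtain ⟨α, n₀, hα⟩ := exists_wild hp hinf (plen P₀) (fun n => by
      refine (B_finite P₀ n).subset fun x hx => ?_
      exact (plen_le_iff P₀ x n).mp hx) f
    refine ⟨twist P₀ α, rfl, n₀, fun n hn => ?_⟩
    obtain ⟨x, hx, hfx⟩ := hα n hn
    rw [plen_le_iff] at hx
    obtain ⟨u, hu, hux, hl⟩ := hx
    have h1 := le_rate (twist P₀ α) P₀ (n := n) ⟨u, hu⟩ hl
    refine hfx.trans (le_of_eq_of_le ?_ h1)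
    change plen P₀ (α x) = plen P₀ (α (P₀.ψ ⟨u, hu⟩))
    rw [← val_eq, hux]

end Pool.Agent.Results.MP_868060_lc.RateDichotomy
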